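import Pool.Agent.H71.WalkExists

/-!
# Closed images of weakly theta-refinable spaces (MP_55e6a3_gt, Q1)

There are zero-dimensional regular Hausdorff spaces `X`, `Y` and a closed continuous surjection
`f : X → Y` such that `X` is weakly theta-refinable and `Y` is not (a theorem of ZFC).

`Y` is the set of ordinals below `omega_2` that are not of countable limit type, with the order
topology; `X = Y × ℕ`, where basic neighbourhoods of `(a, n)` are
`{(a, n)} ∪ {(b, m) : d < b < a, m + rho(b, a) = n}` and `rho(b, a)` is the number of steps of the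
walk from `a` down to `b` along a suitable `C`-sequence.
-/

open Set TopologicalSpace Cardinal

namespace Pool.Agent.Results.MP_55e6a3_gt.ClosedImageCounterexample

open Pool.Agent.H71

theorem result : ∃ (X Y : Type) (_ : TopologicalSpace X) (_ : TopologicalSpace Y) (f : X → Y),
    T3Space X ∧ T3Space Y ∧
    IsTopologicalBasis {s : Set X | IsClopen s} ∧
    IsTopologicalBasis {s : Set Y | IsClopen s} ∧
    Continuous f ∧ Function.Surjective f ∧ IsClosedMap f ∧
    WeaklyThetaRefinable X ∧ ¬ WeaklyThetaRefinable Y := by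
  let I : Type := (Order.succ (ℵ₁ : Cardinal.{0})).ord.ToType
  let J : Type := (ℵ₁ : Cardinal.{0}).ord.ToType
  have hreg : (Order.succ (ℵ₁ : Cardinal.{0})).IsRegular := isRegular_succ aleph0_lt_aleph_one.le
  have h1 : ∀ a : I, #(Iio a) ≤ ℵ₁ := by
    intro a
    have : #(Iio a) < #I := mk_Iio_lt a (by simp [I])
    rw [← Order.lt_succ_iff]
    simpa [I] using this
  have h2 : ∀ S : Set I, #S ≤ ℵ₁ → ∃ b, ∀ s ∈ S, s < b := by
    intro S hS
    have hcof : Order.cof I = Order.succ ℵ₁ := by
      simp only [I]
      rw [Ordinal.cof_toType, hreg.cof_ord]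
    have : ¬ IsCofinal S := by
      intro hc
      have := Order.cof_le hc
      rw [hcof] at this
      exact absurd (this.trans hS) (not_le.2 (Order.lt_succ _))
    unfold IsCofinal at this
    push Not at this
    exact this
  have hJ : ∀ j : J, (Iio j).Countable := by
    intro j
    have h3 : #(Iio j) < #J := mk_Iio_lt j (by simp [J])
    have h4 : #(Iio j) < ℵ₁ := by simpa [J] using h3
    have h5 : #(Iio j) ≤ ℵ₀ := Order.lt_succ_iff.1 (h4.trans_eq succ_aleph0.symm)
    exact Cardinal.le_aleph0_iff_set_countable.1 h5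
  have hJc : #J = ℵ₁ := by simp [J]
  have hJb : ∀ S : Set J, S.Countable → ∃ b, ∀ s ∈ S, s < b := by
    intro S hS
    have hcof : Order.cof J = ℵ₁ := by
      simp only [J]
      rw [Ordinal.cof_toType, isRegular_aleph_one.cof_ord]
    have : ¬ IsCofinal S := by
      intro hc
      have h5 := Order.cof_le hc
      rw [hcof] at h5
      have h6 : #S ≤ ℵ₀ := mk_le_aleph0_iff.2 hS.to_subtype
      exact absurd (h5.trans h6) (not_le.2 aleph0_lt_aleph_one)
    unfold IsCofinal at this
    push Not at this
    exact this
  have hJn : Nonempty J := by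
    obtain ⟨b, -⟩ := hJb ∅ countable_empty
    exact ⟨b⟩
  have hg : ∀ a : I, ∃ g : Iio a → J, Function.Injective g := by
    intro a
    have h7 : #(Iio a) ≤ #J := by rw [hJc]; exact h1 a
    obtain ⟨g⟩ := Cardinal.le_def _ _ |>.1 h7
    exact ⟨g, g.injective⟩
  obtain ⟨S⟩ := exists_CSys hJ hg
  have hXc : CompletelyRegularSpace (XS S) :=
    CompletelyRegularSpace.of_isTopologicalBasis_clopens (XS_basis S)
  have hYc : CompletelyRegularSpace (YS I) :=
    CompletelyRegularSpace.of_isTopologicalBasis_clopens YS_basis
  exact ⟨XS S, YS I, inferInstance, inferInstance, proj S, inferInstance, inferInstance,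
    XS_basis S, YS_basis, proj_continuous S, proj_surjective S, proj_isClosedMap S,
    XS_wtr S, YS_not_wtr_aux h1 h2 hJ hJc.le hJb⟩

end Pool.Agent.Results.MP_55e6a3_gt.ClosedImageCounterexample
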