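import Pool.Agent.H71.Perfect

/-!
# Perfect images of weakly theta-refinable spaces (MP_55e6a3_gt, Q2)

The image of a weakly theta-refinable space under a perfect map (closed continuous surjection with
compact fibres) is weakly theta-refinable. No separation axiom is assumed.
-/

universe u v

namespace Pool.Agent.Results.MP_55e6a3_gt.PerfectImage

open Pool.Agent.H71

theorem result : ∀ (X : Type u) (Y : Type v) [TopologicalSpace X] [TopologicalSpace Y]
    (f : X → Y), Continuous f → Function.Surjective f → IsClosedMap f →
    (∀ y : Y, IsCompact (f ⁻¹' {y})) → WeaklyThetaRefinable X → WeaklyThetaRefinable Y := by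
  intro X Y _ _ f hcont hsurj hclosed hcomp hX
  exact perfect_image f hcont hsurj hclosed hcomp hX

end Pool.Agent.Results.MP_55e6a3_gt.PerfectImage
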